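import Pool.Agent.H274.EvenHeight

/-!
# The even Chern character of idempotent matrices over rings graded by a group

Let `G` be a group and `S = ⨁ S_g` a `G`-graded ring, for example a crossed product or a twisted
group ring `R *_α G` (the additive categories with an action of `G` of the conjecture give such
rings). An idempotent matrix `e` over `S`, with homogeneous components `e_s`, a biadditive map
`T : S × A → M` which is a trace in the first variable, and an `A`-valued class cocycle `c` for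
`g ∈ G` of even degree `2 k ≥ 2` give the number
`τ = ∑ T (tr (e_{w 0} e_{w 1} ⋯ e_{w (2 k)}), c (t, t w₀, …, t w₀ ⋯ w_{2 k - 1}))`.
On the projective modules induced from finite subgroups these numbers vanish. We prove that `τ`,
times `2 k (2 k - 1) ⋯ (k + 1)`, is divisible in `M` by all `N ≥ 1` if `g` has finite order, and by
all powers of the prime `p` if the elements conjugate to `g` have bounded `p`-height.
-/

set_option autoImplicit false

namespace Pool.Agent.Results.MP_5d3e93_al.EvenChernGraded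

open Pool.Agent.W647.HX1

universe u1 u2 u3 u4 u5

/-- Let `S` be a ring graded by the group `G` (`S = ⨁ S_g`, `1 ∈ S_1`, `S_g S_h ⊆ S_{gh}`), let
`T : S × A → M` be biadditive with `T (x y, a) = T (y x, a)`, let `e` be an idempotent matrix over
`S`, let `g ∈ G`, `k ≥ 1`, and let `c` be an `A`-valued class cocycle for `g` of degree `2 k`. Let
`τ = ∑ T (tr (e_{w 0} e_{w 1} ⋯ e_{w (2 k)}), c (t, t w₀, …, t w₀ ⋯ w_{2 k - 1}))`, the sum over all
`w ∈ G ^ (2 k + 1)` whose product `y` is conjugate to `g`, where `t = t y` is such that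
`t y t⁻¹ = g`, and let `D = (2 k) (2 k - 1) ⋯ (k + 1)`.

(1) Let `g` be of finite order (for example `g = 1`). Then `D τ` is divisible in `M` by all `N ≥ 1`;
if `N M = 0` for an `N ≥ 1` which is prime to `D`, then `τ = 0`; and if `0` is the only element of `M`
which is divisible by all `N ≥ 1` (for example, if `M` is a free abelian group), then `D τ = 0`.

(2) Let `H` be a subgroup of `G` which contains the degrees of the nonzero homogeneous components of
`e`, let `p` be a prime and `b ≥ 0` such that no element of `H` which is conjugate to `g` in `G` is a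
`p ^ (b + 1)`-th power in `H`. Then `D τ` is divisible in `M` by all powers of `p`; if `p ^ m M = 0`
for some `m`, then `D τ = 0`, and `τ = 0` if `p` does not divide `D`; and if `0` is the only element
of `M` which is divisible by all powers of `p`, then `D τ = 0`. -/
theorem result (G : Type u1) [Group G] [DecidableEq G] (S : Type u2) [Ring S]
    (𝒮 : G → AddSubgroup S) [DirectSum.Decomposition 𝒮] (h1 : (1 : S) ∈ 𝒮 1)
    (hmul : ∀ g h : G, ∀ x ∈ 𝒮 g, ∀ y ∈ 𝒮 h, x * y ∈ 𝒮 (g * h))
    (A : Type u3) [AddCommGroup A] (M : Type u4) [AddCommGroup M]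
    (T : S →+ A →+ M) (hT : ∀ x y, T (x * y) = T (y * x))
    (d : Type u5) [Fintype d] [DecidableEq d] (e : Matrix d d S) (he : e * e = e)
    (g : G) (t : G → G) (ht : ∀ y, IsConj y g → t y * y * (t y)⁻¹ = g)
    (k : ℕ) (hk : 1 ≤ k) (c : (Fin (2 * k + 1) → G) → A) (hc : IsClassCoc g c) :
    (IsOfFinOrder g →
      (∀ N : ℕ, N ≠ 0 →
        ∃ y : M, (2 * k).descFactorial k • evTau T g t c (gc 𝒮 e) = N • y) ∧
      (∀ N : ℕ, N ≠ 0 → (∀ y : M, N • y = 0) → N.Coprime ((2 * k).descFactorial k) →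
        evTau T g t c (gc 𝒮 e) = 0) ∧
      ((∀ x : M, (∀ N : ℕ, N ≠ 0 → ∃ y, x = N • y) → x = 0) →
        (2 * k).descFactorial k • evTau T g t c (gc 𝒮 e) = 0)) ∧
    (∀ H : Subgroup G, (∀ s, gc 𝒮 e s ≠ 0 → s ∈ H) → ∀ p : ℕ, p.Prime → ∀ b : ℕ,
      (∀ y ∈ H, IsConj y g → ∀ x ∈ H, x ^ p ^ (b + 1) ≠ y) →
      (∀ m : ℕ, ∃ y : M, (2 * k).descFactorial k • evTau T g t c (gc 𝒮 e) = p ^ m • y) ∧
      (∀ m : ℕ, (∀ y : M, p ^ m • y = 0) →
        (2 * k).descFactorial k • evTau T g t c (gc 𝒮 e) = 0 ∧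
        (¬ p ∣ (2 * k).descFactorial k → evTau T g t c (gc 𝒮 e) = 0)) ∧
      ((∀ x : M, (∀ m : ℕ, ∃ y, x = p ^ m • y) → x = 0) →
        (2 * k).descFactorial k • evTau T g t c (gc 𝒮 e) = 0)) := by
  have hcan : ∀ N : ℕ, (∀ y : M, N • y = 0) → N.Coprime ((2 * k).descFactorial k) →
      (2 * k).descFactorial k • evTau T g t c (gc 𝒮 e) = 0 → evTau T g t c (gc 𝒮 e) = 0 := by
    intro N hM hcop hy
    have h3 := Nat.gcd_eq_gcd_ab N ((2 * k).descFactorial k)
    rw [hcop] at h3
    have h4 : ((N : ℤ) * (Nat.gcdA N ((2 * k).descFactorial k)) +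
        (((2 * k).descFactorial k : ℕ) : ℤ) * (Nat.gcdB N ((2 * k).descFactorial k))) •
          evTau T g t c (gc 𝒮 e) = evTau T g t c (gc 𝒮 e) := by
      rw [← h3, Nat.cast_one, one_smul]
    rw [add_smul, mul_smul, natCast_zsmul, hM, zero_add, mul_smul, natCast_zsmul, smul_comm, hy,
      smul_zero] at h4
    exact h4.symm
  refine ⟨fun hg => ?_, fun H hH p hp b hb => ?_⟩
  · have h2 : ∀ N : ℕ, N ≠ 0 →
        ∃ y : M, (2 * k).descFactorial k • evTau T g t c (gc 𝒮 e) = N • y := fun N hN =>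
      graded_even 𝒮 h1 hmul T hT hg ht (by omega) hc e he N hN
    refine ⟨h2, fun N hN hM hcop => ?_, fun hM => hM _ h2⟩
    obtain ⟨y, hy⟩ := h2 N hN
    rw [hM] at hy
    exact hcan N hM hcop hy
  · have h2 : ∀ m : ℕ, ∃ y : M,
        (2 * k).descFactorial k • evTau T g t c (gc 𝒮 e) = p ^ m • y := fun m =>
      graded_even_height 𝒮 h1 hmul T hT ht (by omega) hc e he H hH hp b hb m
    refine ⟨h2, fun m hM => ?_, fun hM => hM _ h2⟩
    obtain ⟨y, hy⟩ := h2 m
    rw [hM] at hy
    exact ⟨hy, fun hpd => hcan (p ^ m) hM (Nat.Coprime.pow_left m ((Nat.Prime.coprime_iff_not_dvd hp).2 hpd)) hy⟩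

end Pool.Agent.Results.MP_5d3e93_al.EvenChernGraded
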